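import Mathlib

/-!
# A map with linear order of growth whose hyperspace map has zero entropy

The Sturmian subshift (the closure `X` of the codings of a rotation of the circle by an irrational
number) has `o(T) = [n]`, and its hyperspace map has entropy zero.

For a word `u` of length `N` the set of the `t ∈ [0, 1)` whose coding starts with `u` is an
interval `[c, d)`.  For a closed set `W` let `H_u(W)` be the set of the times `j < n` at which some
point of `W` shows the word `u`.  It is the set of `j` for which a certain subset of the line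
meets the interval `[v_j, v_j + d - c)`, where `v_j` is the fractional part of `c - j α`.  The
complement of such a set of times is order convex with respect to `v_j` inside each short piece of
`[0, 1)`, so there are only polynomially many such sets.
-/

set_option autoImplicit false

namespace Pool.Agent.Results.MP_2aac2f_an.SturmianHyperspace

open Set Filter Topology

/-! ### Definitions -/

/-- `E` is `(n, ε)`-spanning for `T`: every `x` has some `y ∈ E` with `d_n(x, y) < ε`. -/
def IsSpanning {X : Type*} [MetricSpace X] (T : X → X) (n : ℕ) (ε : ℝ) (E : Finset X) : Prop :=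
  ∀ x, ∃ y ∈ E, ∀ i < n, dist (T^[i] x) (T^[i] y) < ε

/-- `Span(T, n, ε)`: the least cardinality of an `(n, ε)`-spanning set. -/
noncomputable def span {X : Type*} [MetricSpace X] (T : X → X) (n : ℕ) (ε : ℝ) : ℕ :=
  sInf {k | ∃ E : Finset X, E.card = k ∧ IsSpanning T n ε E}

/-- The non-decreasing sequences `ℕ → [0, ∞)`, where `ℕ = {1, 2, …}`. -/
structure Seq where
  /-- the terms -/
  val : ℕ+ → NNReal
  /-- the sequence is non-decreasing -/
  mono : Monotone val

/-- `a ≤ b` iff `a(n) ≤ C b(n)` for all `n` and some `C > 0`. -/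
instance : Preorder Seq where
  le a b := ∃ C : NNReal, 0 < C ∧ ∀ n, a.val n ≤ C * b.val n
  le_refl a := ⟨1, one_pos, fun n => by simp⟩
  le_trans a b c := by
    rintro ⟨C, hC, h⟩ ⟨D, hD, h'⟩
    refine ⟨C * D, mul_pos hC hD, fun n => (h n).trans ?_⟩
    rw [mul_assoc]
    exact mul_le_mul_of_nonneg_left (h' n) hC.le

/-- The partially ordered set of the orders of growth: sequences modulo `a ≤ b ≤ a`. -/
abbrev Orders : Type := Antisymmetrization Seq (· ≤ ·)

/-- The order of growth `[a(n)]` of a sequence. -/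
def cls (a : Seq) : Orders := toAntisymmetrization (· ≤ ·) a

/-- The sequence `n`. -/
def lin : Seq := ⟨fun n => ((n : ℕ) : NNReal), fun _ _ h => Nat.cast_le.mpr h⟩

lemma exists_spanning {X : Type*} [MetricSpace X] [CompactSpace X] (T : C(X, X)) (n : ℕ) {ε : ℝ}
    (hε : 0 < ε) : ∃ E : Finset X, IsSpanning T n ε E := by
  obtain ⟨E, hE⟩ := Dynamics.exists_isDynCoverOf_of_isCompact_uniformContinuous
    (T := T) (F := univ) isCompact_univ
    (CompactSpace.uniformContinuous_of_continuous T.continuous)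
    (Metric.dist_mem_uniformity hε) n
  refine ⟨E, fun x => ?_⟩
  obtain ⟨y, hy, hxy⟩ := hE (mem_univ x)
  refine ⟨y, hy, fun i hi => ?_⟩
  have := Dynamics.mem_dynEntourage.mp hxy i hi
  exact this

lemma span_le {X : Type*} [MetricSpace X] {T : X → X} {n : ℕ} {ε : ℝ} {E : Finset X}
    (h : IsSpanning T n ε E) : span T n ε ≤ E.card := Nat.sInf_le ⟨E, rfl, h⟩

lemma exists_span {X : Type*} [MetricSpace X] [CompactSpace X] (T : C(X, X)) (n : ℕ) {ε : ℝ}
    (hε : 0 < ε) : ∃ E : Finset X, E.card = span T n ε ∧ IsSpanning T n ε E := by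
  obtain ⟨E, hE⟩ := exists_spanning T n hε
  exact Nat.sInf_mem (s := {k | ∃ E : Finset X, E.card = k ∧ IsSpanning T n ε E}) ⟨_, E, rfl, hE⟩

/-- The sequence `n ↦ Span(T, n, ε)`. -/
noncomputable def spanSeq {X : Type*} [MetricSpace X] [CompactSpace X] (T : C(X, X)) (ε : ℝ)
    (hε : 0 < ε) : Seq where
  val n := (span T n ε : NNReal)
  mono a b hab := by
    obtain ⟨E, hE, hs⟩ := exists_span T b hε
    have hab' : (a : ℕ) ≤ b := hab
    have : span T a ε ≤ span T b ε := by
      rw [← hE]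
      exact span_le fun x => by
        obtain ⟨y, hy, h⟩ := hs x
        exact ⟨y, hy, fun i hi => h i (hi.trans_le hab')⟩
    exact Nat.cast_le.mpr this

/-- The generalized entropy `o(T)`: the supremum of the orders `[Span(T, n, ε)]`, `ε > 0`, in the
Dedekind-MacNeille completion of the orders of growth. -/
noncomputable def growth {X : Type*} [MetricSpace X] [CompactSpace X] (T : C(X, X)) :
    DedekindCut Orders :=
  ⨆ ε : {ε : ℝ // 0 < ε}, DedekindCut.principal (cls (spanSeq T ε.1 ε.2))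

/-- The induced map `W ↦ T(W)` on the nonempty closed subsets of `X` (Hausdorff metric). -/
def hyper {X : Type*} [MetricSpace X] [CompactSpace X] (T : C(X, X)) :
    TopologicalSpace.NonemptyCompacts X → TopologicalSpace.NonemptyCompacts X :=
  fun W => W.map T T.continuous

/-! ### Codings of rotations -/

section Coding

variable {α : ℝ}

/-- The coding of `x` under the rotation by `α`. -/
noncomputable def cd (α x : ℝ) (i : ℕ) : Bool :=
  decide (⌊x + ((i + 1 : ℕ) : ℝ) * α⌋ = ⌊x + (i : ℝ) * α⌋ + 1)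

lemma cd_add (x : ℝ) (j i : ℕ) : cd α x (j + i) = cd α (x + j * α) i := by
  unfold cd
  have h1 : x + ((j + i + 1 : ℕ) : ℝ) * α = x + j * α + ((i + 1 : ℕ) : ℝ) * α := by
    push_cast; ring
  have h2 : x + ((j + i : ℕ) : ℝ) * α = x + j * α + (i : ℝ) * α := by push_cast; ring
  rw [h1, h2]

lemma cd_sub_int (x : ℝ) (k : ℤ) (i : ℕ) : cd α (x - k) i = cd α x i := by
  unfold cd
  have h (y : ℝ) : ⌊x - k + y⌋ = ⌊x + y⌋ - k := by
    rw [← Int.floor_sub_intCast]; congr 1; ring
  rw [h, h]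
  exact decide_eq_decide.mpr (by constructor <;> intro h <;> omega)

lemma floor_step (h0 : 0 ≤ α) (h1 : α ≤ 1) (y : ℝ) : ⌊y + α⌋ = ⌊y⌋ ∨ ⌊y + α⌋ = ⌊y⌋ + 1 := by
  have a : ⌊y⌋ ≤ ⌊y + α⌋ := Int.floor_le_floor (by linarith)
  have b : ⌊y + α⌋ ≤ ⌊y + 1⌋ := Int.floor_le_floor (by linarith)
  rw [Int.floor_add_one] at b
  omega

/-- Partial sums of a 0-1 sequence. -/
def ps (u : ℕ → Bool) (n : ℕ) : ℤ := ∑ i ∈ Finset.range n, (if u i then 1 else 0)

lemma ps_succ (u : ℕ → Bool) (n : ℕ) : ps u (n + 1) = ps u n + (if u n then 1 else 0) :=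
  Finset.sum_range_succ _ _

lemma ps_congr {u u' : ℕ → Bool} {n : ℕ} (h : ∀ i < n, u i = u' i) {j : ℕ} (hj : j ≤ n) :
    ps u j = ps u' j :=
  Finset.sum_congr rfl fun i hi => by rw [h i ((Finset.mem_range.mp hi).trans_le hj)]

lemma eq_of_ps {u u' : ℕ → Bool} {n : ℕ} (h : ∀ j ≤ n, ps u j = ps u' j) {i : ℕ} (hi : i < n) :
    u i = u' i := by
  have h1 := h (i + 1) hi
  have h2 := h i hi.le
  rw [ps_succ, ps_succ, h2, add_right_inj] at h1
  cases hu : u i <;> cases hu' : u' i <;> simp_all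

lemma ps_cd (h0 : 0 ≤ α) (h1 : α ≤ 1) (x : ℝ) (n : ℕ) : ps (cd α x) n = ⌊x + n * α⌋ - ⌊x⌋ := by
  induction n with
  | zero => simp [ps]
  | succ n ih =>
    rw [ps_succ, ih]
    have h2 : x + ((n + 1 : ℕ) : ℝ) * α = x + n * α + α := by push_cast; ring
    have h3 := floor_step h0 h1 (x + n * α)
    rw [← h2] at h3
    unfold cd
    rcases h3 with h3 | h3
    · rw [h3]; simp
    · rw [h3]; simp; ring

/-- Left end of the interval of a word. -/
noncomputable def lo (α : ℝ) (N : ℕ) (u : ℕ → Bool) : ℝ :=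
  (Finset.range (N + 1)).sup' (Finset.nonempty_range_iff.mpr (Nat.succ_ne_zero N)) (fun j => (ps u j : ℝ) - j * α)

/-- Right end of the interval of a word. -/
noncomputable def hi (α : ℝ) (N : ℕ) (u : ℕ → Bool) : ℝ :=
  (Finset.range (N + 1)).inf' (Finset.nonempty_range_iff.mpr (Nat.succ_ne_zero N)) (fun j => (ps u j : ℝ) + 1 - j * α)

lemma word_interval (h0 : 0 ≤ α) (h1 : α ≤ 1) (N : ℕ) (u : ℕ → Bool) (t : ℝ) :
    (lo α N u ≤ t ∧ t < hi α N u) ↔ (0 ≤ t ∧ t < 1 ∧ ∀ i < N, cd α t i = u i) := by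
  unfold lo hi
  rw [Finset.sup'_le_iff, Finset.lt_inf'_iff]
  constructor
  · rintro ⟨ha, hb⟩
    have ha0 := ha 0 (by simp)
    have hb0 := hb 0 (by simp)
    simp [ps] at ha0 hb0
    have hf : ⌊t⌋ = 0 := Int.floor_eq_zero_iff.mpr ⟨ha0, hb0⟩
    refine ⟨ha0, hb0, fun i hi => eq_of_ps (n := N) (fun j hj => ?_) hi⟩
    rw [ps_cd h0 h1, hf, sub_zero, Int.floor_eq_iff]
    have ha' := ha j (by simp; omega)
    have hb' := hb j (by simp; omega)
    constructor <;> linarith
  · rintro ⟨ha0, hb0, hw⟩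
    have hf : ⌊t⌋ = 0 := Int.floor_eq_zero_iff.mpr ⟨ha0, hb0⟩
    have key : ∀ j ∈ Finset.range (N + 1), (ps u j : ℝ) ≤ t + j * α ∧ t + j * α < ps u j + 1 := by
      intro j hj
      rw [Finset.mem_range, Nat.lt_succ_iff] at hj
      have := ps_cd h0 h1 t j
      rw [hf, sub_zero, ps_congr hw hj] at this
      exact Int.floor_eq_iff.mp this.symm
    exact ⟨fun j hj => by linarith [(key j hj).1], fun j hj => by linarith [(key j hj).2]⟩

lemma word_at (h0 : 0 ≤ α) (h1 : α ≤ 1) (N : ℕ) (u : ℕ → Bool) (t : ℝ) (j : ℕ) :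
    (∀ i < N, cd α t (j + i) = u i) ↔
      ∃ k : ℤ, lo α N u ≤ t + j * α - k ∧ t + j * α - k < hi α N u := by
  constructor
  · intro h
    refine ⟨⌊t + j * α⌋, (word_interval h0 h1 N u _).mpr ⟨?_, ?_, fun i hi => ?_⟩⟩
    · linarith [Int.floor_le (t + j * α)]
    · linarith [Int.lt_floor_add_one (t + j * α)]
    · rw [cd_sub_int, ← cd_add, h i hi]
  · rintro ⟨k, hk⟩ i hi
    have := ((word_interval h0 h1 N u _).mp hk).2.2 i hi
    rw [cd_add, ← this, cd_sub_int]

end Coding

/-! ### The number of hitting patterns -/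

section Patterns

/-- The set of times described by a code. -/
noncomputable def decode (v : ℕ → ℝ) (M n : ℕ) (code : Fin M → Fin (n + 1) × Fin (n + 1)) :
    Finset ℕ := by
  classical
  exact (Finset.range n).filter (fun j => ¬ ∃ i : Fin M, ⌊(M : ℝ) * v j⌋₊ = i ∧
    ((code i).1 : ℕ) < n ∧ v (code i).1 ≤ v j ∧ v j ≤ v (code i).2)

open Classical in
lemma exists_code (v : ℕ → ℝ) (hv0 : ∀ j, 0 ≤ v j) (hv1 : ∀ j, v j < 1) {lam : ℝ} {M : ℕ}
    (hM : 0 < M) (hlam : 1 / (M : ℝ) ≤ lam) (n : ℕ) (Q : Set ℝ) :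
    ∃ code : Fin M → Fin (n + 1) × Fin (n + 1),
      (Finset.range n).filter (fun j => ∃ q ∈ Q, v j ≤ q ∧ q < v j + lam) = decode v M n code := by
  have hMpos : (0 : ℝ) < M := by exact_mod_cast hM
  set Ns : Fin M → Finset ℕ := fun i => (Finset.range n).filter
    (fun j => ⌊(M : ℝ) * v j⌋₊ = i ∧ ¬ ∃ q ∈ Q, v j ≤ q ∧ q < v j + lam) with hNs
  have hex : ∀ i : Fin M, ∃ p : Fin (n + 1) × Fin (n + 1), ∀ j < n, ⌊(M : ℝ) * v j⌋₊ = i →
      (((p.1 : ℕ) < n ∧ v p.1 ≤ v j ∧ v j ≤ v p.2) ↔ ¬ ∃ q ∈ Q, v j ≤ q ∧ q < v j + lam) := by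
    intro i
    by_cases hne : (Ns i).Nonempty
    · obtain ⟨a, ha, hamin⟩ := (Ns i).exists_min_image v hne
      obtain ⟨b, hb, hbmax⟩ := (Ns i).exists_max_image v hne
      simp only [hNs, Finset.mem_filter, Finset.mem_range] at ha hb hamin hbmax
      refine ⟨(⟨a, by omega⟩, ⟨b, by omega⟩), fun j hj hji => ?_⟩
      simp only
      constructor
      · rintro ⟨-, h1, h2⟩ ⟨q, hq, hq1, hq2⟩
        -- `v b ≤ v a + lam`
        have hab : v b ≤ v a + lam := by
          have e1 : (i : ℝ) ≤ M * v a := by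
            rw [← ha.2.1]
            exact Nat.floor_le (mul_nonneg hMpos.le (hv0 a))
          have e2 : M * v b < (i : ℝ) + 1 := by
            rw [← hb.2.1]
            exact Nat.lt_floor_add_one _
          have e3 : M * v b < M * v a + 1 := by linarith
          have e4 : v b < v a + 1 / M := by
            have : M * (v a + 1 / M) = M * v a + 1 := by field_simp
            rw [← this] at e3
            exact lt_of_mul_lt_mul_left e3 hMpos.le
          linarith
        by_cases hqa : q < v a + lam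
        · exact ha.2.2 ⟨q, hq, h1.trans hq1, hqa⟩
        · exact hb.2.2 ⟨q, hq, by linarith, by linarith⟩
      · intro hno
        have hjN : j < n ∧ ⌊(M : ℝ) * v j⌋₊ = i ∧ ¬ ∃ q ∈ Q, v j ≤ q ∧ q < v j + lam :=
          ⟨hj, hji, hno⟩
        exact ⟨ha.1, hamin j hjN, hbmax j hjN⟩
    · refine ⟨(Fin.last n, Fin.last n), fun j hj hji => ?_⟩
      simp only [Fin.val_last, lt_irrefl, false_and, false_iff, not_not]
      by_contra hno
      exact hne ⟨j, by simp only [hNs, Finset.mem_filter, Finset.mem_range]; exact ⟨hj, hji, hno⟩⟩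
  choose code hcode using hex
  refine ⟨code, ?_⟩
  ext j
  simp only [decode, Finset.mem_filter, Finset.mem_range, and_congr_right_iff]
  intro hj
  -- the piece of `j`
  have hlt : ⌊(M : ℝ) * v j⌋₊ < M := by
    rw [Nat.floor_lt (mul_nonneg hMpos.le (hv0 j))]
    nlinarith [hv1 j]
  constructor
  · rintro hq ⟨i, hi, hc⟩
    exact (hcode i j hj hi).mp hc hq
  · intro h
    by_contra hno
    exact h ⟨⟨_, hlt⟩, rfl, (hcode ⟨_, hlt⟩ j hj rfl).mpr hno⟩

open Classical in
lemma exists_code' (α c d : ℝ) {M : ℕ} (hM : 0 < M) (hcd : 1 / (M : ℝ) ≤ d - c) (n : ℕ)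
    (P : Set ℝ) : ∃ code : Fin M → Fin (n + 1) × Fin (n + 1),
      (Finset.range n).filter
        (fun j : ℕ => ∃ t ∈ P, ∃ k : ℤ, c ≤ t + (j : ℝ) * α - k ∧ t + (j : ℝ) * α - k < d) =
        decode (fun j : ℕ => Int.fract (c - j * α)) M n code := by
  obtain ⟨code, h⟩ := exists_code (fun j : ℕ => Int.fract (c - j * α))
    (fun j => Int.fract_nonneg _) (fun j => Int.fract_lt_one _) hM hcd n
    {q | ∃ t ∈ P, ∃ k : ℤ, q = t - k}
  refine ⟨code, ?_⟩
  rw [← h]
  refine Finset.filter_congr fun j _ => ?_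
  constructor
  · rintro ⟨t, ht, k, h1, h2⟩
    refine ⟨t - ((k + ⌊c - j * α⌋ : ℤ) : ℝ), ⟨t, ht, _, rfl⟩, ?_, ?_⟩
    · unfold Int.fract; push_cast; linarith
    · unfold Int.fract; push_cast; linarith
  · rintro ⟨q, ⟨t, ht, k, rfl⟩, h1, h2⟩
    unfold Int.fract at h1 h2
    refine ⟨t, ht, k - ⌊c - j * α⌋, ?_, ?_⟩
    · push_cast; linarith
    · push_cast; linarith

end Patterns

/-- A labelling with finitely many labels has a finite set of representatives. -/
lemma label_cover {Y β : Type*} (L : Y → β) (S : Finset β) (h : ∀ y, L y ∈ S) :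
    ∃ E : Finset Y, E.card ≤ S.card ∧ ∀ y, ∃ e ∈ E, L y = L e := by
  classical
  set S' := S.filter (fun b => ∃ y, L y = b) with hS'
  have hex : ∀ b : {b // b ∈ S'}, ∃ y, L y = b.1 := fun b => by
    exact (Finset.mem_filter (p := fun b : β => ∃ y, L y = b) (s := S).mp b.2).2
  choose g hg using hex
  refine ⟨Finset.univ.image g, ?_, fun y => ?_⟩
  · refine Finset.card_image_le.trans ?_
    rw [Finset.card_univ, Fintype.card_coe]
    exact Finset.card_filter_le _ _
  · have hy : L y ∈ S' := Finset.mem_filter.mpr ⟨h y, y, rfl⟩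
    exact ⟨g ⟨L y, hy⟩, Finset.mem_image_of_mem _ (Finset.mem_univ _), (hg ⟨L y, hy⟩).symm⟩

/-! ### The Sturmian subshift -/

/-- The space of the 0-1 sequences. -/
def Om : Type := ℕ → Bool

/-- The distance of `x ≠ y` is `2 ^ (-n)`, where `n` is the first index with `x n ≠ y n`. -/
noncomputable instance : MetricSpace Om := PiNat.metricSpace (E := fun _ : ℕ => Bool)

instance : CompactSpace Om := inferInstanceAs (CompactSpace (ℕ → Bool))

lemma agree_of_dist_lt {x y : Om} {m : ℕ} (h : dist x y < (1 / 2) ^ m) {i : ℕ} (hi : i ≤ m) :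
    x i = y i := PiNat.apply_eq_of_dist_lt (E := fun _ : ℕ => Bool) h hi

lemma dist_le_of_agree {x y : Om} {m : ℕ} (h : ∀ i < m, x i = y i) : dist x y ≤ (1 / 2) ^ m :=
  PiNat.mem_cylinder_iff_dist_le (E := fun _ : ℕ => Bool).mp h

/-- The codings of the points of the circle. -/
def codings (α : ℝ) : Set Om := range (fun x : ℝ => cd α x)

/-- The Sturmian subshift. -/
abbrev Stu (α : ℝ) : Type := ↥(closure (codings α))

instance (α : ℝ) : CompactSpace (Stu α) :=
  isCompact_iff_compactSpace.mp isClosed_closure.isCompact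

/-- The shift on all sequences. -/
def sh (x : Om) : Om := fun i => x (i + 1)

lemma continuous_sh : Continuous sh :=
  continuous_pi (A := fun _ : ℕ => Bool) (X := Om) fun i => continuous_apply (A := fun _ : ℕ => Bool) (i + 1)

lemma sh_mem {α : ℝ} {x : Om} (hx : x ∈ closure (codings α)) : sh x ∈ closure (codings α) := by
  refine map_mem_closure continuous_sh hx ?_
  rintro _ ⟨t, rfl⟩
  refine ⟨t + (1 : ℕ) * α, ?_⟩
  funext i
  simp only [sh]
  rw [← cd_add, add_comm]

/-- The shift on the Sturmian subshift. -/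
def T (α : ℝ) : C(Stu α, Stu α) where
  toFun x := ⟨sh x.1, sh_mem x.2⟩
  continuous_toFun := by
    refine Continuous.subtype_mk ?_ _
    exact continuous_sh.comp continuous_subtype_val

lemma T_iter (α : ℝ) (x : Stu α) (j i : ℕ) : ((T α)^[j] x).1 i = x.1 (j + i) := by
  induction j generalizing x with
  | zero => simp
  | succ j ih =>
    rw [Function.iterate_succ_apply, ih]
    have h : j + 1 + i = j + i + 1 := by omega
    rw [h]
    rfl

lemma exists_approx (α : ℝ) (x : Stu α) (n : ℕ) : ∃ t : ℝ, 0 ≤ t ∧ t < 1 ∧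
    ∀ i < n, x.1 i = cd α t i := by
  obtain ⟨_, ⟨t, rfl⟩, ht⟩ := Metric.mem_closure_iff.mp x.2 ((1 / 2) ^ n) (by positivity)
  refine ⟨t - ⌊t⌋, by linarith [Int.floor_le t], by linarith [Int.lt_floor_add_one t],
    fun i hi => ?_⟩
  rw [cd_sub_int]
  exact agree_of_dist_lt ht hi.le

/-- The coding as a point of the subshift. -/
noncomputable def pt (α t : ℝ) : Stu α := ⟨cd α t, subset_closure ⟨t, rfl⟩⟩

section Main

variable {α : ℝ} (h0 : 0 < α) (h1 : α < 1)

include h0 h1

lemma agree_of_sum {N : ℕ} {x y : Stu α}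
    (h : ∑ j ∈ Finset.range (N + 1), ps x.1 j = ∑ j ∈ Finset.range (N + 1), ps y.1 j) :
    ∀ i < N, x.1 i = y.1 i := by
  obtain ⟨t, ht0, ht1, ht⟩ := exists_approx α x N
  obtain ⟨s, hs0, hs1, hs⟩ := exists_approx α y N
  have ft : ⌊t⌋ = 0 := Int.floor_eq_zero_iff.mpr ⟨ht0, ht1⟩
  have fs : ⌊s⌋ = 0 := Int.floor_eq_zero_iff.mpr ⟨hs0, hs1⟩
  have ex : ∀ j ∈ Finset.range (N + 1), ps x.1 j = ⌊t + j * α⌋ := by
    intro j hj
    rw [Finset.mem_range, Nat.lt_succ_iff] at hj
    rw [ps_congr ht hj, ps_cd h0.le h1.le, ft, sub_zero]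
  have ey : ∀ j ∈ Finset.range (N + 1), ps y.1 j = ⌊s + j * α⌋ := by
    intro j hj
    rw [Finset.mem_range, Nat.lt_succ_iff] at hj
    rw [ps_congr hs hj, ps_cd h0.le h1.le, fs, sub_zero]
  have hall : ∀ j ∈ Finset.range (N + 1), ps x.1 j = ps y.1 j := by
    rcases le_total t s with hts | hts
    · refine (Finset.sum_eq_sum_iff_of_le fun j hj => ?_).mp h
      rw [ex j hj, ey j hj]
      exact Int.floor_le_floor (by linarith)
    · intro j hj
      refine ((Finset.sum_eq_sum_iff_of_le fun j hj => ?_).mp h.symm j hj).symm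
      rw [ex j hj, ey j hj]
      exact Int.floor_le_floor (by linarith)
  intro i hi
  exact eq_of_ps (fun j hj => hall j (by simp; omega)) hi

lemma sum_mem (N : ℕ) (x : Stu α) : ∑ j ∈ Finset.range (N + 1), ps x.1 j ∈
    Finset.Icc (∑ j ∈ Finset.range (N + 1), ⌊(j : ℝ) * α⌋)
      (∑ j ∈ Finset.range (N + 1), ⌊(j : ℝ) * α⌋ + (N + 1 : ℕ)) := by
  obtain ⟨t, ht0, ht1, ht⟩ := exists_approx α x N
  have ft : ⌊t⌋ = 0 := Int.floor_eq_zero_iff.mpr ⟨ht0, ht1⟩
  have ex : ∀ j ∈ Finset.range (N + 1), ps x.1 j = ⌊t + j * α⌋ := by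
    intro j hj
    rw [Finset.mem_range, Nat.lt_succ_iff] at hj
    rw [ps_congr ht hj, ps_cd h0.le h1.le, ft, sub_zero]
  rw [Finset.mem_Icc]
  constructor
  · refine Finset.sum_le_sum fun j hj => ?_
    rw [ex j hj]
    exact Int.floor_le_floor (by linarith)
  · have hb : ∀ j ∈ Finset.range (N + 1), ps x.1 j ≤ ⌊(j : ℝ) * α⌋ + 1 := by
      intro j hj
      rw [ex j hj, ← Int.floor_add_one]
      exact Int.floor_le_floor (by linarith)
    refine (Finset.sum_le_sum hb).trans ?_
    rw [Finset.sum_add_distrib]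
    simp

lemma span_upper {ε : ℝ} {m : ℕ} (hm : (1 / 2 : ℝ) ^ (m + 1) < ε) (n : ℕ) :
    span (T α) n ε ≤ n + m + 2 := by
  obtain ⟨E, hE, hE'⟩ := label_cover
    (fun x : Stu α => ∑ j ∈ Finset.range (n + m + 1), ps x.1 j) _ (sum_mem h0 h1 (n + m))
  have hcard : E.card ≤ n + m + 2 := by
    refine hE.trans ?_
    rw [Int.card_Icc]
    omega
  refine (span_le (E := E) fun x => ?_).trans hcard
  obtain ⟨y, hy, hxy⟩ := hE' x
  have hag := agree_of_sum h0 h1 hxy
  refine ⟨y, hy, fun i hi => lt_of_le_of_lt ?_ hm⟩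
  refine dist_le_of_agree fun k hk => ?_
  rw [T_iter, T_iter]
  exact hag _ (by omega)

lemma span_lower (hα : Irrational α) {n : ℕ} {E : Finset (Stu α)}
    (hE : IsSpanning (T α) n 1 E) : n + 1 ≤ E.card := by
  choose g hgE hg using hE
  have hword : ∀ x : Stu α, ∀ i < n, x.1 i = (g x).1 i := by
    intro x i hi
    have := hg x i hi
    have h2 := agree_of_dist_lt (m := 0) (i := 0) (x := ((T α)^[i] x).1) (y := ((T α)^[i] (g x)).1)
      (by rw [pow_zero]; exact this) le_rfl
    rw [T_iter, T_iter] at h2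
    simpa using h2
  set tt : ℕ → ℝ := fun j => Int.fract (-((j : ℝ) * α)) with htt
  -- the key step
  have key : ∀ i j : ℕ, j ≤ n → tt i < tt j → g (pt α (tt i)) ≠ g (pt α (tt j)) := by
    intro i j hj hij hgg
    have hw : ∀ k < n, cd α (tt i) k = cd α (tt j) k := by
      intro k hk
      have e1 := hword (pt α (tt i)) k hk
      have e2 := hword (pt α (tt j)) k hk
      rw [hgg, ← e2] at e1
      exact e1
    have fi : ⌊tt i⌋ = 0 := Int.floor_eq_zero_iff.mpr ⟨Int.fract_nonneg _, Int.fract_lt_one _⟩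
    have fj : ⌊tt j⌋ = 0 := Int.floor_eq_zero_iff.mpr ⟨Int.fract_nonneg _, Int.fract_lt_one _⟩
    have h3 := ps_congr hw hj
    rw [ps_cd h0.le h1.le, ps_cd h0.le h1.le, fi, fj, sub_zero, sub_zero] at h3
    have h4 : tt j + j * α = ((-⌊-((j : ℝ) * α)⌋ : ℤ) : ℝ) := by
      simp only [htt, Int.fract]
      push_cast
      ring
    rw [h4, Int.floor_intCast] at h3
    have h5 : tt i + j * α < ((-⌊-((j : ℝ) * α)⌋ : ℤ) : ℝ) := by rw [← h4]; linarith
    have h6 := Int.floor_lt.mpr h5
    omega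
  have hinj : Set.InjOn (fun j => g (pt α (tt j))) (Finset.range (n + 1) : Set ℕ) := by
    intro i hi j hj hij
    simp only [Finset.coe_range, mem_Iio, Nat.lt_succ_iff] at hi hj
    rcases lt_trichotomy (tt i) (tt j) with h | h | h
    · exact absurd hij (key i j hj h)
    · -- irrationality
      by_contra hne
      simp only [htt] at h
      rw [Int.fract_eq_fract] at h
      obtain ⟨z, hz⟩ := h
      have h2 : ((j : ℝ) - i) * α = z := by rw [← hz]; ring
      have h3 : ((j : ℝ) - i) ≠ 0 := by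
        intro h4
        apply hne
        have : (j : ℝ) = i := by linarith
        exact_mod_cast this.symm
      apply hα
      refine ⟨(z : ℚ) / ((j : ℚ) - i), ?_⟩
      push_cast
      rw [div_eq_iff h3, ← h2]
      ring
    · exact absurd hij.symm (key j i hi h)
  have := Finset.card_le_card_of_injOn (s := Finset.range (n + 1)) (t := E)
    (fun j => g (pt α (tt j))) (fun j _ => hgE _) hinj
  simpa using this

lemma growth_eq (hα : Irrational α) : growth (T α) = DedekindCut.principal (cls lin) := by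
  refine le_antisymm ?_ ?_
  · refine iSup_le fun ε => ?_
    rw [DedekindCut.principal_le_principal]
    obtain ⟨m, hm⟩ := exists_pow_lt_of_lt_one ε.2 (show (1 / 2 : ℝ) < 1 by norm_num)
    have hm' : (1 / 2 : ℝ) ^ (m + 1) < ε.1 :=
      lt_of_le_of_lt (pow_le_pow_of_le_one (by norm_num) (by norm_num) (Nat.le_succ m)) hm
    show toAntisymmetrization (· ≤ ·) _ ≤ toAntisymmetrization (· ≤ ·) _
    rw [toAntisymmetrization_le_toAntisymmetrization_iff]
    refine ⟨((m + 3 : ℕ) : NNReal), by positivity, fun n => ?_⟩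
    have h2 := span_upper h0 h1 hm' n
    have hn : 1 ≤ (n : ℕ) := n.pos
    have h3 : span (T α) n ε.1 ≤ (m + 3) * (n : ℕ) := h2.trans (by nlinarith)
    show ((span (T α) n ε.1 : ℕ) : NNReal) ≤ ((m + 3 : ℕ) : NNReal) * ((n : ℕ) : NNReal)
    exact_mod_cast h3
  · refine le_trans ?_ (le_iSup _ (⟨1, one_pos⟩ : {ε : ℝ // 0 < ε}))
    rw [DedekindCut.principal_le_principal]
    show toAntisymmetrization (· ≤ ·) _ ≤ toAntisymmetrization (· ≤ ·) _
    rw [toAntisymmetrization_le_toAntisymmetrization_iff]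
    refine ⟨1, one_pos, fun n => ?_⟩
    obtain ⟨E, hE, hs⟩ := exists_span (T α) n (one_pos (α := ℝ))
    have h2 := span_lower h0 h1 hα hs
    rw [hE] at h2
    show ((n : ℕ) : NNReal) ≤ 1 * ((span (T α) n 1 : ℕ) : NNReal)
    rw [one_mul]
    exact_mod_cast (Nat.le_succ _).trans h2

omit h0 h1 in
lemma hyper_iter (W : TopologicalSpace.NonemptyCompacts (Stu α)) (j : ℕ) :
    (((hyper (T α))^[j] W : TopologicalSpace.NonemptyCompacts (Stu α)) : Set (Stu α)) =
      (T α)^[j] '' (W : Set (Stu α)) := by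
  induction j with
  | zero => simp
  | succ j ih =>
    rw [Function.iterate_succ_apply', hyper, TopologicalSpace.NonemptyCompacts.coe_map, ih,
      Function.iterate_succ', image_comp]

open Classical in
/-- The times before `n` at which some point of `W` shows the word `u`. -/
noncomputable def hit (N n : ℕ) (W : Set (Stu α)) (u : Fin N → Bool) : Finset ℕ :=
  (Finset.range n).filter (fun j => ∃ x ∈ W, ∀ i : Fin N, x.1 (j + i) = u i)

open Classical in
lemma exists_labels (N : ℕ) : ∃ K : ℕ, ∀ n : ℕ, ∃ S : Finset ((Fin N → Bool) → Finset ℕ),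
    S.card ≤ (n + 1) ^ K ∧ ∀ W : Set (Stu α), hit N n W ∈ S := by
  -- the extension of a word by zeros
  set ex : (Fin N → Bool) → ℕ → Bool := fun u i => if h : i < N then u ⟨i, h⟩ else false with hex
  have hexi : ∀ u (i : Fin N), ex u i = u i := fun u i => by simp [hex]
  -- the number of pieces
  obtain ⟨M, hM0, hM⟩ : ∃ M : ℕ, 0 < M ∧ ∀ u : Fin N → Bool, lo α N (ex u) < hi α N (ex u) →
      1 / (M : ℝ) ≤ hi α N (ex u) - lo α N (ex u) := by
    have hpt : ∀ u : Fin N → Bool, ∃ M : ℕ, 0 < M ∧ (lo α N (ex u) < hi α N (ex u) →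
      1 / (M : ℝ) ≤ hi α N (ex u) - lo α N (ex u)) := by
      intro u
      by_cases hlt : lo α N (ex u) < hi α N (ex u)
      · obtain ⟨k, hk⟩ := exists_nat_one_div_lt (sub_pos.mpr hlt)
        exact ⟨k + 1, Nat.succ_pos k, fun _ => by push_cast; exact hk.le⟩
      · exact ⟨1, one_pos, fun h => absurd h hlt⟩
    choose Mu hMu hMu' using hpt
    refine ⟨∑ u, Mu u, Finset.sum_pos (fun u _ => hMu u) Finset.univ_nonempty, fun u hu => ?_⟩
    refine le_trans ?_ (hMu' u hu)
    have hpos : (0 : ℝ) < Mu u := by exact_mod_cast hMu u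
    refine one_div_le_one_div_of_le hpos ?_
    exact_mod_cast Finset.single_le_sum (f := Mu) (fun _ _ => Nat.zero_le _) (Finset.mem_univ u)
  refine ⟨2 * M * Fintype.card (Fin N → Bool), fun n => ?_⟩
  set Su : (Fin N → Bool) → Finset (Finset ℕ) := fun u =>
    if lo α N (ex u) < hi α N (ex u) then
      Finset.univ.image (decode (fun j => Int.fract (lo α N (ex u) - j * α)) M n)
    else {∅} with hSu
  refine ⟨Fintype.piFinset Su, ?_, fun W => ?_⟩
  · rw [Fintype.card_piFinset]
    have hcard : ∀ u ∈ (Finset.univ : Finset (Fin N → Bool)), (Su u).card ≤ (n + 1) ^ (2 * M) := by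
      intro u _
      simp only [hSu]
      split_ifs with h
      · refine Finset.card_image_le.trans ?_
        rw [Finset.card_univ, Fintype.card_fun, Fintype.card_prod, Fintype.card_fin,
          Fintype.card_fin, pow_mul, pow_two]
      · rw [Finset.card_singleton]
        exact Nat.one_le_pow _ _ (Nat.succ_pos n)
    refine (Finset.prod_le_prod' hcard).trans ?_
    rw [Finset.prod_const, Finset.card_univ, ← pow_mul]
  · rw [Fintype.mem_piFinset]
    intro u
    -- the parameters of the points of `W`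
    set P : Set ℝ := {t | ∃ x ∈ W, ∀ i < n + N, x.1 i = cd α t i} with hP
    have hhit : hit N n W u = (Finset.range n).filter (fun j : ℕ => ∃ t ∈ P, ∃ k : ℤ,
        lo α N (ex u) ≤ t + (j : ℝ) * α - k ∧ t + (j : ℝ) * α - k < hi α N (ex u)) := by
      unfold hit
      refine Finset.filter_congr fun j hj => ?_
      rw [Finset.mem_range] at hj
      constructor
      · rintro ⟨x, hx, hxu⟩
        obtain ⟨t, -, -, ht⟩ := exists_approx α x (n + N)
        refine ⟨t, ⟨x, hx, ht⟩, (word_at h0.le h1.le N (ex u) t j).mp fun i hi => ?_⟩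
        rw [← ht _ (by omega), hexi u ⟨i, hi⟩]
        exact hxu ⟨i, hi⟩
      · rintro ⟨t, ⟨x, hx, ht⟩, hk⟩
        refine ⟨x, hx, fun i => ?_⟩
        have := (word_at h0.le h1.le N (ex u) t j).mpr hk i i.2
        rw [ht _ (by omega), this, hexi]
    simp only [hSu]
    split_ifs with h
    · obtain ⟨code, hcode⟩ := exists_code' α (lo α N (ex u)) (hi α N (ex u)) hM0 (hM u h) n P
      rw [Finset.mem_image]
      exact ⟨code, Finset.mem_univ _, by rw [hhit, hcode]⟩
    · rw [Finset.mem_singleton, hhit, Finset.filter_eq_empty_iff]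
      rintro j - ⟨t, -, k, h2, h3⟩
      exact h (h2.trans_lt h3)

lemma mincard_le {U : SetRel (TopologicalSpace.NonemptyCompacts (Stu α))
      (TopologicalSpace.NonemptyCompacts (Stu α))}
    (hU : U ∈ uniformity (TopologicalSpace.NonemptyCompacts (Stu α))) :
    ∃ K : ℕ, ∀ n : ℕ, Dynamics.coverMincard (hyper (T α)) univ U n ≤ (((n + 1) ^ K : ℕ) : ℕ∞) := by
  obtain ⟨ε, hε, hεU⟩ := Metric.mem_uniformity_dist.mp hU
  obtain ⟨N, hN⟩ := exists_pow_lt_of_lt_one hε (show (1 / 2 : ℝ) < 1 by norm_num)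
  obtain ⟨K, hK⟩ := exists_labels h0 h1 N
  refine ⟨K, fun n => ?_⟩
  obtain ⟨S, hS, hS'⟩ := hK n
  obtain ⟨E, hE, hE'⟩ := label_cover
    (fun W : TopologicalSpace.NonemptyCompacts (Stu α) => hit N n (W : Set (Stu α))) S
    (fun W => hS' _)
  have hcov : Dynamics.IsDynCoverOf (hyper (T α)) univ U n (E : Set _) := by
    intro W _
    obtain ⟨W', hW', hWW⟩ := hE' W
    refine ⟨W', hW', ?_⟩
    rw [Dynamics.mem_dynEntourage]
    intro j hj
    apply hεU
    refine lt_of_le_of_lt ?_ hN
    rw [Metric.NonemptyCompacts.dist_eq, hyper_iter, hyper_iter]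
    have aux : ∀ A B : Set (Stu α), hit N n A = hit N n B → ∀ x ∈ (T α)^[j] '' A,
        ∃ y ∈ (T α)^[j] '' B, dist x y ≤ (1 / 2) ^ N := by
      rintro A B hAB _ ⟨x, hx, rfl⟩
      have h2 : j ∈ hit N n A (fun i : Fin N => x.1 (j + i)) := by
        classical
        simp only [hit, Finset.mem_filter, Finset.mem_range]
        exact ⟨hj, x, hx, fun i => rfl⟩
      rw [hAB] at h2
      classical
      simp only [hit, Finset.mem_filter, Finset.mem_range] at h2
      obtain ⟨-, y, hy, hyx⟩ := h2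
      refine ⟨_, ⟨y, hy, rfl⟩, dist_le_of_agree fun i hi => ?_⟩
      rw [T_iter, T_iter]
      exact (hyx ⟨i, hi⟩).symm
    exact Metric.hausdorffDist_le_of_mem_dist (by positivity) (aux _ _ hWW) (fun x hx => by
      obtain ⟨y, hy, hxy⟩ := aux _ _ hWW.symm x hx
      exact ⟨y, hy, hxy⟩)
  refine hcov.coverMincard_le_card.trans ?_
  exact_mod_cast hE.trans hS

omit h0 h1 in
lemma growth_poly (K : ℕ) :
    ExpGrowth.expGrowthSup (fun n : ℕ => (((n + 1) ^ K : ℕ) : ENNReal)) ≤ 0 := by
  refine EReal.le_of_forall_lt_iff_le.mp fun b hb => ?_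
  have hb' : (0 : ℝ) < b := by exact_mod_cast hb
  refine Eventually.expGrowthSup_le ?_
  have h1 := (isLittleO_pow_exp_pos_mul_atTop K hb').comp_tendsto tendsto_natCast_atTop_atTop
  have h2 := h1.def (c := (1 / 2 ^ K : ℝ)) (by positivity)
  filter_upwards [h2, eventually_ge_atTop 1] with n hn hn1
  simp only [Function.comp_apply, Real.norm_eq_abs] at hn
  rw [abs_of_nonneg (by positivity), abs_of_pos (Real.exp_pos _)] at hn
  have h3 : ((n : ℝ) + 1) ^ K ≤ Real.exp (b * n) := by
    have h4 : ((n : ℝ) + 1) ^ K ≤ (2 * n) ^ K := by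
      have : (1 : ℝ) ≤ n := by exact_mod_cast hn1
      gcongr
      linarith
    rw [mul_pow] at h4
    refine h4.trans ?_
    calc (2 : ℝ) ^ K * (n : ℝ) ^ K ≤ 2 ^ K * (1 / 2 ^ K * Real.exp (b * n)) := by gcongr
      _ = Real.exp (b * n) := by field_simp
  have h5 : EReal.exp ((b : EReal) * (n : EReal)) = ENNReal.ofReal (Real.exp (b * n)) := by
    have : ((b : EReal) * (n : EReal)) = ((b * n : ℝ) : EReal) := by push_cast; rfl
    rw [this, EReal.exp_coe]
  rw [h5]
  have h6 : (((n + 1) ^ K : ℕ) : ENNReal) = ENNReal.ofReal (((n : ℝ) + 1) ^ K) := by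
    rw [← ENNReal.ofReal_natCast]
    push_cast
    rfl
  rw [h6]
  exact ENNReal.ofReal_le_ofReal h3

lemma entropy_zero : Dynamics.coverEntropy (hyper (T α)) univ = 0 := by
  refine le_antisymm ?_ (Dynamics.coverEntropy_nonneg _ ?_)
  · refine iSup₂_le fun U hU => ?_
    obtain ⟨K, hK⟩ := mincard_le h0 h1 hU
    refine le_trans (ExpGrowth.expGrowthSup_monotone fun n => ?_) (growth_poly K)
    have := ENat.toENNReal_mono (hK n)
    simpa using this
  · exact ⟨{pt α 0}, mem_univ _⟩

end Main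

/-- There are a compact metric space `X` and a continuous `T : X → X` with `o(T) = [n]` whose
hyperspace map has topological entropy `0`. -/
theorem result : ∃ (X : Type) (_ : MetricSpace X) (_ : CompactSpace X) (T : C(X, X)),
    growth T = DedekindCut.principal (cls lin) ∧
    Dynamics.coverEntropy (hyper T) (univ : Set (TopologicalSpace.NonemptyCompacts X)) = 0 := by
  have h1 : (1 : ℝ) < √2 := by
    rw [show (1 : ℝ) = √1 by simp]
    exact Real.sqrt_lt_sqrt (by norm_num) (by norm_num)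
  have h2 : √2 < 2 := by
    rw [Real.sqrt_lt' (by norm_num)]
    norm_num
  have hirr : Irrational (√2 - 1) := by
    simpa using irrational_sqrt_two.sub_intCast 1
  exact ⟨Stu (√2 - 1), inferInstance, inferInstance, T (√2 - 1),
    growth_eq (by linarith) (by linarith) hirr, entropy_zero (by linarith) (by linarith)⟩

end Pool.Agent.Results.MP_2aac2f_an.SturmianHyperspace
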